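import Pool.Agent.Lib.MP_3166b2_lc.Main

/-!
# MP_3166b2_lc: no Borel set decides conjugacy of minimal distal homeomorphisms

For every Borel set `B ⊆ X × X` there are minimal, topologically distal pairs `(K, T)` and `(L, S)`
for which membership of the pair of codes in `B` differs from topological conjugacy.
All definitions are in `Pool/Agent/Lib/MP_3166b2_lc/Defs.lean`.
-/

namespace Pool.Agent.Results.MP_3166b2_lc.ConjugacyMinimalDistalNotBorel

open MP3166b2

theorem result (d : MetricSpace Q) (hd : Compatible d) (B : Set (X × X)) (hB : IsBorel B) :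
    ∃ (A A' : Sys) (hA : A.Minimal) (hA' : A'.Minimal), A.Distal d ∧ A'.Distal d ∧
      ¬ ((A.codeX hA, A'.codeX hA') ∈ B ↔ A.Conj A') :=
  main d hd B hB

end Pool.Agent.Results.MP_3166b2_lc.ConjugacyMinimalDistalNotBorel
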